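import Pool.Agent.Helper20.SW.Cone
import Pool.Agent.Helper63.HM.Cone
import Pool.Agent.Helper38.Thick.Frame

/-!
# The cone over a largest plane of a lattice of rank four

Row D6 of the page `MP_47cd0b_FINAL_h20.md`: the atoms `A` of a lattice, a largest plane `Q` and a
point `o` off it give a `Cone`, and `Cone.Good` gives the rank four data.
-/

set_option autoImplicit false
set_option linter.unusedSectionVars false

namespace Pool.Agent.Helper68.RF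

open Finset Classical
open Pool.Agent.Helper28.BPack Pool.Agent.Helper61.Motz Pool.Agent.Helper63.HM
open H20SW

variable {L : Type} [Lattice L] [BoundedOrder L] [Finite L] [IsUpperModularLattice L]

/-- points of the plane -/
abbrev Yt (A : Finset L) (Q : L) : Type := {y : L // y ∈ A ∧ y ≤ Q}

/-- users -/
abbrev Ut (A : Finset L) (Q o : L) : Type := {z : L // z ∈ A ∧ ¬ z ≤ Q ∧ z ≠ o}

/-- lines of the plane -/
abbrev Et (A : Finset L) (Q : L) : Type :=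
  {l : L // rk l = 2 ∧ l ≤ Q ∧ ∃ x ∈ A, ∃ y ∈ A, x ≠ y ∧ x ≤ l ∧ y ≤ l}

noncomputable instance (A : Finset L) (Q : L) : Fintype (Yt A Q) :=
  @Fintype.ofFinite _ (Subtype.finite)

noncomputable instance (A : Finset L) (Q o : L) : Fintype (Ut A Q o) :=
  @Fintype.ofFinite _ (Subtype.finite)

noncomputable instance (A : Finset L) (Q : L) : Fintype (Et A Q) :=
  @Fintype.ofFinite _ (Subtype.finite)

theorem card_Yt (A : Finset L) (Q : L) :
    Fintype.card (Yt A Q) = (A.filter (fun a => a ≤ Q)).card := by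
  exact Fintype.card_of_subtype _ (fun x => Finset.mem_filter)

/-- A plane over a line of `Q` and a point off `Q`. -/
theorem rk_plane {Q z l : L} (hz : IsAtom z) (hzQ : ¬ z ≤ Q) (hl : rk l = 2) (hlQ : l ≤ Q) :
    rk (z ⊔ l) = 3 := by
  rw [sup_comm, rk_sup_atom hz (fun h => hzQ (h.trans hlQ)), hl]

/-- Lines of `Q` in a plane not equal to `Q`. -/
theorem line_in_plane {Q z l m H : L} (hQ : rk Q = 3) (hH : rk H = 3) (hzQ : ¬ z ≤ Q)
    (hzH : z ≤ H) (hl : rk l = 2) (hlQ : l ≤ Q) (hm : rk m = 2) (hmQ : m ≤ Q) (hlH : l ≤ H)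
    (hmH : m ≤ H) : l = m := by
  have h1 : rk (l ⊔ m) ≤ 2 := by
    by_contra h
    have e1 : l ⊔ m = Q := eq_of_le_of_rk (sup_le hlQ hmQ) (by omega)
    have e2 : l ⊔ m = H := eq_of_le_of_rk (sup_le hlH hmH) (by omega)
    exact hzQ (by rw [← e1, e2]; exact hzH)
  have e1 : l = l ⊔ m := eq_of_le_of_rk le_sup_left (by omega)
  have e2 : m = l ⊔ m := eq_of_le_of_rk le_sup_right (by omega)
  exact e1.trans e2.symm

/-- Points of `Q` on a line not in `Q`. -/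
theorem point_in_line {Q z x y g : L} (hx : IsAtom x) (hy : IsAtom y) (hg : rk g = 2)
    (hzQ : ¬ z ≤ Q) (hzg : z ≤ g) (hxQ : x ≤ Q) (hyQ : y ≤ Q) (hxg : x ≤ g) (hyg : y ≤ g) :
    x = y := by
  by_contra h
  have e := line_eq hx hy h hxg hyg hg
  exact hzQ (hzg.trans (e ▸ sup_le hxQ hyQ))

/-- The cone. -/
noncomputable def cone {A : Finset L} (hA : ∀ a ∈ A, IsAtom a) {Q : L} (hQ : rk Q = 3)
    (hmax : ∀ H, rk H = 3 → (A.filter (fun a => a ≤ H)).card ≤ (A.filter (fun a => a ≤ Q)).card)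
    {s : ℕ} (hs : ∀ g, rk g = 2 → (A.filter (fun a => a ≤ g)).card ≤ s) {o : L} (ho : o ∈ A)
    (hoQ : ¬ o ≤ Q) : Cone (Yt A Q) (Ut A Q o) (Et A Q) L L L where
  s := s
  on y l := y.1 ≤ l.1
  pl z l := z.1 ⊔ l.1
  ln z y := z.1 ⊔ y.1
  ray z := z.1 ⊔ o
  ok z l := ¬ o ≤ z.1 ⊔ l.1
  tip z y := y.1 ≤ z.1 ⊔ o
  two := by
    rintro ⟨l, hl, hlQ, x, hx, y, hy, hxy, hxl, hyl⟩
    exact ⟨⟨x, hx, hxl.trans hlQ⟩, ⟨y, hy, hyl.trans hlQ⟩,
      fun e => hxy (congrArg Subtype.val e), hxl, hyl⟩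
  join := by
    rintro ⟨x, hx, hxQ⟩ ⟨y, hy, hyQ⟩ hxy
    have hne : x ≠ y := fun e => hxy (Subtype.ext e)
    exact ⟨⟨x ⊔ y, rk_line (hA x hx) (hA y hy) hne, sup_le hxQ hyQ, x, hx, y, hy, hne,
      le_sup_left, le_sup_right⟩, le_sup_left, le_sup_right⟩
  uniq := by
    rintro ⟨x, hx, hxQ⟩ ⟨y, hy, hyQ⟩ ⟨l, hl, hlQ, hl2⟩ ⟨m, hm, hmQ, hm2⟩ hxy h1 h2 h3 h4
    have hne : x ≠ y := fun e => hxy (Subtype.ext e)
    exact Subtype.ext ((line_eq (hA x hx) (hA y hy) hne h1 h2 hl).symm.trans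
      (line_eq (hA x hx) (hA y hy) hne h3 h4 hm))
  short := by
    rintro ⟨l, hl, hlQ, hl2⟩
    refine le_trans ?_ (hs l hl)
    refine Finset.card_le_card_of_injOn Subtype.val ?_ ?_
    · intro y hy
      exact Finset.mem_coe.mpr (Finset.mem_filter.mpr ⟨y.2.1,
        (Finset.mem_filter.mp (Finset.mem_coe.mp hy)).2⟩)
    · intro a _ b _ e
      exact Subtype.ext e
  pl_line := by
    rintro ⟨z, hz, hzQ, hzo⟩ ⟨w, hw, hwQ, hwo⟩ ⟨l, hl, hlQ, hl2⟩ ⟨m, hm, hmQ, hm2⟩ e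
    refine Subtype.ext (line_in_plane (z := z) (H := z ⊔ l) hQ
      (rk_plane (hA z hz) hzQ hl hlQ) hzQ le_sup_left hl hlQ hm hmQ le_sup_right ?_)
    change z ⊔ l = w ⊔ m at e
    rw [e]
    exact le_sup_right
  ln_pt := by
    rintro ⟨z, hz, hzQ, hzo⟩ ⟨w, hw, hwQ, hwo⟩ ⟨x, hx, hxQ⟩ ⟨y, hy, hyQ⟩ e
    change z ⊔ x = w ⊔ y at e
    refine Subtype.ext (point_in_line (z := z) (g := z ⊔ x) (hA x hx) (hA y hy)
      (rk_line (hA z hz) (hA x hx) (fun h => hzQ (h ▸ hxQ))) hzQ le_sup_left hxQ hyQ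
      le_sup_right ?_)
    rw [e]
    exact le_sup_right
  two_ln := by
    rintro ⟨z, hz, hzQ, hzo⟩ ⟨w, hw, hwQ, hwo⟩ ⟨x, hx, hxQ⟩ ⟨y, hy, hyQ⟩ hxy h1 h2
    change z ⊔ x = w ⊔ x at h1
    change z ⊔ y = w ⊔ y at h2
    apply Subtype.ext
    change z = w
    by_contra hzw
    have hzx : z ≠ x := fun h => hzQ (h ▸ hxQ)
    have hzy : z ≠ y := fun h => hzQ (h ▸ hyQ)
    have e1 : z ⊔ w = z ⊔ x := line_eq (hA z hz) (hA w hw) hzw le_sup_left
      (h1 ▸ le_sup_left) (rk_line (hA z hz) (hA x hx) hzx)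
    have e2 : z ⊔ w = z ⊔ y := line_eq (hA z hz) (hA w hw) hzw le_sup_left
      (h2 ▸ le_sup_left) (rk_line (hA z hz) (hA y hy) hzy)
    exact hxy (Subtype.ext (point_in_line (z := z) (g := z ⊔ x) (hA x hx) (hA y hy)
      (rk_line (hA z hz) (hA x hx) hzx) hzQ le_sup_left hxQ hyQ le_sup_right
      (by rw [← e1, e2]; exact le_sup_right)))
  ok_congr := by
    intro z w l e h h'
    change z.1 ⊔ l.1 = w.1 ⊔ l.1 at e
    exact h (by rw [e]; exact h')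
  ln_pl := by
    rintro ⟨z, hz, hzQ, hzo⟩ ⟨w, hw, hwQ, hwo⟩ ⟨y, hy, hyQ⟩ ⟨l, hl, hlQ, hl2⟩ h e
    change y ≤ l at h
    change z ⊔ y = w ⊔ y at e
    change z ⊔ l = w ⊔ l
    rw [← sup_eq_right.mpr h, ← sup_assoc, ← sup_assoc, e]
  card_pl := by
    rintro ⟨z, hz, hzQ, hzo⟩ ⟨l, hl, hlQ, hl2⟩ _
    rw [card_Yt]
    refine le_trans ?_ (hmax (z ⊔ l) (rk_plane (hA z hz) hzQ hl hlQ))
    have e1 : (univ.filter fun w : Ut A Q o => w.1 ⊔ l = z ⊔ l).card =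
        ((univ.filter fun w : Ut A Q o => w.1 ⊔ l = z ⊔ l).image Subtype.val).card :=
      (Finset.card_image_of_injective _ Subtype.val_injective).symm
    have e2 : (univ.filter fun y : Yt A Q => y.1 ≤ l).card =
        ((univ.filter fun y : Yt A Q => y.1 ≤ l).image Subtype.val).card :=
      (Finset.card_image_of_injective _ Subtype.val_injective).symm
    change (univ.filter fun w : Ut A Q o => w.1 ⊔ l = z ⊔ l).card +
      (univ.filter fun y : Yt A Q => y.1 ≤ l).card ≤ _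
    rw [e1, e2, ← Finset.card_union_of_disjoint]
    · refine Finset.card_le_card ?_
      intro a ha
      rcases Finset.mem_union.mp ha with h | h
      · obtain ⟨w, hw, rfl⟩ := Finset.mem_image.mp h
        have hw2 := (Finset.mem_filter.mp hw).2
        exact Finset.mem_filter.mpr ⟨w.2.1, hw2 ▸ le_sup_left⟩
      · obtain ⟨y, hy, rfl⟩ := Finset.mem_image.mp h
        have hy2 := (Finset.mem_filter.mp hy).2
        exact Finset.mem_filter.mpr ⟨y.2.1, hy2.trans le_sup_right⟩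
    · rw [Finset.disjoint_left]
      intro a ha ha'
      obtain ⟨w, hw, rfl⟩ := Finset.mem_image.mp ha
      obtain ⟨y, hy, e⟩ := Finset.mem_image.mp ha'
      exact w.2.2.1 (e ▸ y.2.2)
  card_ln := by
    rintro ⟨z, hz, hzQ, hzo⟩ ⟨y, hy, hyQ⟩
    refine le_trans ?_ (hs (z ⊔ y) (rk_line (hA z hz) (hA y hy) (fun h => hzQ (h ▸ hyQ))))
    refine Finset.card_le_card_of_injOn Subtype.val ?_ ?_
    · intro w hw
      have hw2 : w.1 ⊔ y = z ⊔ y := (Finset.mem_filter.mp (Finset.mem_coe.mp hw)).2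
      exact Finset.mem_coe.mpr (Finset.mem_filter.mpr ⟨w.2.1, hw2 ▸ le_sup_left⟩)
    · intro a _ b _ e
      exact Subtype.ext e
  tip_uniq := by
    rintro ⟨z, hz, hzQ, hzo⟩ ⟨x, hx, hxQ⟩ ⟨y, hy, hyQ⟩ h1 h2
    exact Subtype.ext (point_in_line (z := z) (g := z ⊔ o) (hA x hx) (hA y hy)
      (rk_line (hA z hz) (hA o ho) hzo) hzQ le_sup_left hxQ hyQ h1 h2)
  tip_bad := by
    rintro ⟨z, hz, hzQ, hzo⟩ ⟨y, hy, hyQ⟩ ⟨l, hl, hlQ, hl2⟩ h1 h2 h3
    change y ≤ z ⊔ o at h1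
    change y ≤ l at h2
    apply h3
    change o ≤ z ⊔ l
    have e : y ⊔ z = z ⊔ o := line_eq (hA y hy) (hA z hz) (fun h => hzQ (h ▸ hyQ)) h1
      le_sup_left (rk_line (hA z hz) (hA o ho) hzo)
    calc o ≤ z ⊔ o := le_sup_right
      _ = y ⊔ z := e.symm
      _ ≤ z ⊔ l := sup_le (h2.trans le_sup_right) le_sup_left
  bad_uniq := by
    rintro ⟨z, hz, hzQ, hzo⟩ ⟨y, hy, hyQ⟩ ⟨l, hl, hlQ, hl2⟩ ⟨m, hm, hmQ, hm2⟩ h1 h2 h3 h4 h5
    change ¬ y ≤ z ⊔ o at h1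
    change y ≤ l at h2
    change y ≤ m at h3
    replace h4 : o ≤ z ⊔ l := not_not.mp h4
    replace h5 : o ≤ z ⊔ m := not_not.mp h5
    have e0 : rk (z ⊔ o ⊔ y) = 3 := by
      rw [rk_sup_atom (hA y hy) h1, rk_line (hA z hz) (hA o ho) hzo]
    have e1 : z ⊔ o ⊔ y = z ⊔ l := eq_of_le_of_rk
      (sup_le (sup_le le_sup_left h4) (h2.trans le_sup_right))
      (by rw [e0, rk_plane (hA z hz) hzQ hl hlQ])
    have e2 : z ⊔ o ⊔ y = z ⊔ m := eq_of_le_of_rk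
      (sup_le (sup_le le_sup_left h5) (h3.trans le_sup_right))
      (by rw [e0, rk_plane (hA z hz) hzQ hm hmQ])
    exact Subtype.ext (line_in_plane (z := z) (H := z ⊔ l) hQ (rk_plane (hA z hz) hzQ hl hlQ)
      hzQ le_sup_left hl hlQ hm hmQ le_sup_right (by rw [← e1, e2]; exact le_sup_right))
  ray_ok := by
    rintro ⟨z, hz, hzQ, hzo⟩ ⟨w, hw, hwQ, hwo⟩ ⟨l, hl, hlQ, hl2⟩ e h1 h2
    change z ⊔ o = w ⊔ o at e
    change ¬ o ≤ z ⊔ l at h1
    change o ≤ w ⊔ l at h2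
    have h3 : z ≤ w ⊔ l := by
      have : z ≤ w ⊔ o := e ▸ le_sup_left
      exact this.trans (sup_le le_sup_left h2)
    have e1 : z ⊔ l = w ⊔ l := eq_of_le_of_rk (sup_le h3 le_sup_right)
      (by rw [rk_plane (hA z hz) hzQ hl hlQ, rk_plane (hA w hw) hwQ hl hlQ])
    exact h1 (by rw [e1]; exact h2)
  ray_bad := by
    rintro ⟨z, hz, hzQ, hzo⟩ ⟨w, hw, hwQ, hwo⟩ ⟨l, hl, hlQ, hl2⟩ ⟨m, hm, hmQ, hm2⟩ hne h1 h2
      h3 h4
    replace hne : z ⊔ o ≠ w ⊔ o := hne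
    replace h1 : o ≤ z ⊔ l := not_not.mp h1
    replace h2 : o ≤ w ⊔ l := not_not.mp h2
    replace h3 : o ≤ z ⊔ m := not_not.mp h3
    replace h4 : o ≤ w ⊔ m := not_not.mp h4
    have hol : ∀ v, IsAtom v → ¬ v ≤ Q → ∀ k, rk k = 2 → k ≤ Q → o ≤ v ⊔ k → o ⊔ k = v ⊔ k := by
      intro v hv hvQ k hk hkQ h
      exact eq_of_le_of_rk (sup_le h le_sup_right)
        (by rw [rk_plane hv hvQ hk hkQ, rk_plane (hA o ho) hoQ hk hkQ])
    have hw' : ¬ w ≤ z ⊔ o := by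
      intro h
      apply hne
      exact (line_eq (hA w hw) (hA o ho) hwo h le_sup_right
        (rk_line (hA z hz) (hA o ho) hzo)).symm
    have e0 : rk (z ⊔ o ⊔ w) = 3 := by
      rw [rk_sup_atom (hA w hw) hw', rk_line (hA z hz) (hA o ho) hzo]
    have hwl : w ≤ z ⊔ l := by
      rw [← hol z (hA z hz) hzQ l hl hlQ h1, hol w (hA w hw) hwQ l hl hlQ h2]
      exact le_sup_left
    have hwm : w ≤ z ⊔ m := by
      rw [← hol z (hA z hz) hzQ m hm hmQ h3, hol w (hA w hw) hwQ m hm hmQ h4]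
      exact le_sup_left
    have e1 : z ⊔ o ⊔ w = z ⊔ l := eq_of_le_of_rk (sup_le (sup_le le_sup_left h1) hwl)
      (by rw [e0, rk_plane (hA z hz) hzQ hl hlQ])
    have e2 : z ⊔ o ⊔ w = z ⊔ m := eq_of_le_of_rk (sup_le (sup_le le_sup_left h3) hwm)
      (by rw [e0, rk_plane (hA z hz) hzQ hm hmQ])
    exact Subtype.ext (line_in_plane (z := z) (H := z ⊔ l) hQ (rk_plane (hA z hz) hzQ hl hlQ)
      hzQ le_sup_left hl hlQ hm hmQ le_sup_right (by rw [← e1, e2]; exact le_sup_right))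
  ray_pl := by
    rintro ⟨z, hz, hzQ, hzo⟩ ⟨w, hw, hwQ, hwo⟩ ⟨l, hl, hlQ, hl2⟩ e h1 h2
    change z ⊔ o = w ⊔ o at e
    change ¬ o ≤ z ⊔ l at h1
    change z ⊔ l = w ⊔ l at h2
    apply Subtype.ext
    change z = w
    by_contra hzw
    have e1 : z ⊔ w = z ⊔ o := line_eq (hA z hz) (hA w hw) hzw le_sup_left
      (e ▸ le_sup_left) (rk_line (hA z hz) (hA o ho) hzo)
    apply h1
    calc o ≤ z ⊔ o := le_sup_right
      _ = z ⊔ w := e1.symm
      _ ≤ z ⊔ l := sup_le le_sup_left (h2 ▸ le_sup_left)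
  ray_ln := by
    rintro ⟨z, hz, hzQ, hzo⟩ ⟨w, hw, hwQ, hwo⟩ ⟨y, hy, hyQ⟩ e h1 h2
    change z ⊔ o = w ⊔ o at e
    change ¬ y ≤ z ⊔ o at h1
    change z ⊔ y = w ⊔ y at h2
    apply Subtype.ext
    change z = w
    by_contra hzw
    have e1 : z ⊔ w = z ⊔ o := line_eq (hA z hz) (hA w hw) hzw le_sup_left
      (e ▸ le_sup_left) (rk_line (hA z hz) (hA o ho) hzo)
    have e2 : z ⊔ w = z ⊔ y := line_eq (hA z hz) (hA w hw) hzw le_sup_left
      (h2 ▸ le_sup_left) (rk_line (hA z hz) (hA y hy) (fun h => hzQ (h ▸ hyQ)))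
    exact h1 (by rw [← e1, e2]; exact le_sup_right)

/-- **The conclusion of the cone gives the rank four data.** -/
theorem crit4_of_good {A : Finset L} (hA : ∀ a ∈ A, IsAtom a) {Q : L} (hQ : rk Q = 3)
    (hQ3 : Crit3 (A.filter (fun a => a ≤ Q)))
    (hmax : ∀ H, rk H = 3 → (A.filter (fun a => a ≤ H)).card ≤ (A.filter (fun a => a ≤ Q)).card)
    {s : ℕ} (hs : ∀ g, rk g = 2 → (A.filter (fun a => a ≤ g)).card ≤ s) {o : L} (ho : o ∈ A)
    (hoQ : ¬ o ≤ Q) (hG : (cone hA hQ hmax hs ho hoQ).Good) : Crit4 A := by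
  obtain ⟨l, x, y, h1, h2⟩ := hG
  have hB4 : Crit4 (insert o (A.filter (fun a => a ≤ Q))) := crit4_base hA hQ ho hoQ hQ3
  have hBm : ∀ a, a ∈ insert o (A.filter (fun a => a ≤ Q)) ↔ a = o ∨ (a ∈ A ∧ a ≤ Q) :=
    fun a => by rw [Finset.mem_insert, Finset.mem_filter]
  set B := insert o (A.filter (fun a => a ≤ Q)) with hB
  have hBn : ∀ v ∈ A, v ∉ B → v ∈ A ∧ ¬ v ≤ Q ∧ v ≠ o := by
    intro v hv h
    rw [hBm] at h
    push Not at h
    exact ⟨hv, fun h' => h.2 hv h', h.1⟩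
  -- facts
  have hon : ∀ z : Ut A Q o, ((x z).1 ≤ (l z).1 ∧ (y z).1 ≤ (l z).1) ∧ (x z).1 ≠ (y z).1 ∧
      ¬ o ≤ z.1 ⊔ (l z).1 := by
    intro z
    obtain ⟨k1, k2, k3, k4⟩ := h1 z
    exact ⟨⟨k2, k3⟩, fun e => k4 (Subtype.ext e), k1⟩
  have hxy : ∀ z : Ut A Q o, (x z).1 ⊔ (y z).1 = (l z).1 := fun z =>
    line_eq (hA _ (x z).2.1) (hA _ (y z).2.1) (hon z).2.1 (hon z).1.1 (hon z).1.2 (l z).2.1
  have htop : ∀ z : Ut A Q o, z.1 ⊔ (x z).1 ⊔ (y z).1 = z.1 ⊔ (l z).1 := fun z => by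
    rw [sup_assoc, hxy z]
  have hrk : ∀ z : Ut A Q o, rk (z.1 ⊔ (l z).1) = 3 := fun z =>
    rk_plane (hA _ z.2.1) z.2.2.1 (l z).2.1 (l z).2.2.1
  have hinj : ∀ z w : Ut A Q o, z.1 ⊔ (l z).1 = w.1 ⊔ (l w).1 → z = w := fun z w e => by
    by_contra hne
    exact (h2 z w hne).1 e
  have hlx : ∀ z : Ut A Q o, ∀ q : L, q ∈ A → q ≤ Q → q ≤ (l z).1 → ∀ a ∈ B, ∀ e ∈ B, a ≠ e →
      a ≤ z.1 ⊔ q → e ≤ z.1 ⊔ q → False := by
    intro z q hq hqQ hql a ha e he hae h3 h4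
    have hzq : z.1 ≠ q := fun h => z.2.2.1 (h ▸ hqQ)
    have hle : z.1 ⊔ q ≤ z.1 ⊔ (l z).1 := sup_le_sup_left hql _
    rcases (hBm a).mp ha with h | ⟨ha1, ha2⟩
    · exact (hon z).2.2 ((le_of_eq h.symm).trans (h3.trans hle))
    rcases (hBm e).mp he with h | ⟨he1, he2⟩
    · exact (hon z).2.2 ((le_of_eq h.symm).trans (h4.trans hle))
    exact hae (point_in_line (hA a ha1) (hA e he1) (rk_line (hA _ z.2.1) (hA q hq) hzq)
      z.2.2.1 le_sup_left ha2 he2 h3 h4)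
  refine nPeel (A := A) (B := B)
    (c' := fun v => if h : v ∈ A ∧ ¬ v ≤ Q ∧ v ≠ o then (x ⟨v, h⟩).1 else o)
    (d' := fun v => if h : v ∈ A ∧ ¬ v ≤ Q ∧ v ≠ o then (y ⟨v, h⟩).1 else o)
    hA ?_ hB4 ?_ ?_ ?_ ?_ ?_ ?_ ?_ ?_
  · intro a ha
    rcases (hBm a).mp ha with h | h
    · exact h ▸ ho
    · exact h.1
  · intro v hv hvB
    have h := hBn v hv hvB
    simp only [h, and_self, not_false_eq_true, ne_eq, dite_true]
    refine ⟨(x ⟨v, h⟩).2.1, (y ⟨v, h⟩).2.1, ?_⟩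
    rw [htop ⟨v, h⟩, hrk ⟨v, h⟩]
  · intro v hv hvB w hw hwB e
    have h := hBn v hv hvB
    have h' := hBn w hw hwB
    simp only [dif_pos h, dif_pos h'] at e
    by_contra hne
    exact (h2 ⟨v, h⟩ ⟨w, h'⟩ (fun e' => hne (congrArg Subtype.val e'))).2.1 e
  · intro v hv hvB w hw hwB e
    have h := hBn v hv hvB
    have h' := hBn w hw hwB
    simp only [dif_pos h, dif_pos h'] at e
    by_contra hne
    exact (h2 ⟨v, h⟩ ⟨w, h'⟩ (fun e' => hne (congrArg Subtype.val e'))).2.2.1 e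
  · intro v hv hvB w hw hwB e
    have h := hBn v hv hvB
    have h' := hBn w hw hwB
    simp only [dif_pos h, dif_pos h'] at e
    by_cases hne : v = w
    · subst hne
      apply (hon ⟨v, h⟩).2.1
      have hvx : v ≠ (x ⟨v, h⟩).1 := fun e' => h.2.1 (by
        rw [e']; exact (x ⟨v, h⟩).2.2)
      exact point_in_line (z := v) (hA _ (x ⟨v, h⟩).2.1) (hA _ (y ⟨v, h⟩).2.1)
        (rk_line (hA v hv) (hA _ (x ⟨v, h⟩).2.1) hvx) h.2.1 le_sup_left (x ⟨v, h⟩).2.2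
        (y ⟨v, h⟩).2.2 le_sup_right (by rw [e]; exact le_sup_right)
    · exact (h2 ⟨v, h⟩ ⟨w, h'⟩ (fun e' => hne (congrArg Subtype.val e'))).2.2.2 e
  · intro v hv hvB w hw hwB e
    have h := hBn v hv hvB
    have h' := hBn w hw hwB
    simp only [dif_pos h, dif_pos h'] at e
    rw [htop ⟨v, h⟩, htop ⟨w, h'⟩] at e
    exact congrArg Subtype.val (hinj ⟨v, h⟩ ⟨w, h'⟩ e)
  · intro v hv hvB a ha e he hae h3 h4
    have h := hBn v hv hvB
    simp only [dif_pos h] at h3 h4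
    exact hlx ⟨v, h⟩ _ (x ⟨v, h⟩).2.1 (x ⟨v, h⟩).2.2 (hon ⟨v, h⟩).1.1 a ha e he hae h3 h4
  · intro v hv hvB a ha e he hae h3 h4
    have h := hBn v hv hvB
    simp only [dif_pos h] at h3 h4
    exact hlx ⟨v, h⟩ _ (y ⟨v, h⟩).2.1 (y ⟨v, h⟩).2.2 (hon ⟨v, h⟩).1.2 a ha e he hae h3 h4
  · intro v hv hvB a ha e he t ht h3 h4 h5 h6
    have h := hBn v hv hvB
    simp only [dif_pos h] at h4 h5 h6
    rw [htop ⟨v, h⟩] at h4 h5 h6
    have hle : ∀ b ∈ B, b ≤ v ⊔ (l ⟨v, h⟩).1 → b ≤ Q := by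
      intro b hb hbl
      rcases (hBm b).mp hb with hb1 | hb1
      · exact absurd ((le_of_eq hb1.symm).trans hbl) (hon ⟨v, h⟩).2.2
      · exact hb1.2
    have e1 : a ⊔ e ⊔ t = Q := eq_of_le_of_rk
      (sup_le (sup_le (hle a ha h4) (hle e he h5)) (hle t ht h6)) (by rw [hQ, h3])
    have e2 : a ⊔ e ⊔ t = v ⊔ (l ⟨v, h⟩).1 := eq_of_le_of_rk (sup_le (sup_le h4 h5) h6)
      (by rw [hrk ⟨v, h⟩, h3])
    exact h.2.1 (by rw [← e1, e2]; exact le_sup_left)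

/-- Every element of rank at most three is below a plane. -/
theorem exists_plane {A : Finset L} (hA : ∀ a ∈ A, IsAtom a) (hr : rk (A.sup id) = 4) :
    ∀ (n : ℕ) (x : L), rk x ≤ 3 → 3 - rk x = n → ∃ H, rk H = 3 ∧ x ≤ H := by
  intro n
  induction n with
  | zero =>
    intro x hx h
    exact ⟨x, by omega, le_rfl⟩
  | succ n ih =>
    intro x hx h
    obtain ⟨a, ha, hax⟩ := Pool.Agent.Helper38.Thick.exists_not_le hr hx
    have h1 := rk_sup_atom (hA a ha) hax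
    obtain ⟨H, hH, hle⟩ := ih (x ⊔ a) (by omega) (by omega)
    exact ⟨H, hH, le_sup_left.trans hle⟩

/-- A largest plane is spanned by atoms. -/
theorem rk_largest {A : Finset L} (hA : ∀ a ∈ A, IsAtom a) (hr : rk (A.sup id) = 4) {Q : L}
    (hQ : rk Q = 3)
    (hmax : ∀ H, rk H = 3 → (A.filter (fun a => a ≤ H)).card ≤ (A.filter (fun a => a ≤ Q)).card) :
    rk ((A.filter (fun a => a ≤ Q)).sup id) = 3 := by
  set X := A.filter (fun a => a ≤ Q) with hX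
  have hle : X.sup id ≤ Q := Finset.sup_le fun x hx => (Finset.mem_filter.mp hx).2
  have h1 := rk_mono hle
  by_contra hne
  obtain ⟨a, ha, hag⟩ := Pool.Agent.Helper38.Thick.exists_not_le hr (p := X.sup id) (by omega)
  have h2 := rk_sup_atom (hA a ha) hag
  obtain ⟨H, hH, hgH⟩ := exists_plane hA hr _ (X.sup id ⊔ a) (by omega) rfl
  have h3 := hmax H hH
  have haX : a ∉ X := fun h => hag (Finset.le_sup (f := id) h)
  have h4 : (insert a X).card ≤ (A.filter (fun b => b ≤ H)).card := by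
    refine Finset.card_le_card ?_
    intro b hb
    rw [Finset.mem_filter]
    rcases Finset.mem_insert.mp hb with h | h
    · exact ⟨h ▸ ha, h ▸ (le_sup_right.trans hgH)⟩
    · exact ⟨(Finset.mem_filter.mp h).1,
        (Finset.le_sup (f := id) h).trans (le_sup_left.trans hgH)⟩
  rw [Finset.card_insert_of_notMem haX] at h4
  omega

/-- **Row D6.**  A theorem about cones gives the rank four data of a set of atoms with a largest
plane `Q`. -/
theorem crit4_of_cones {A : Finset L} (hA : ∀ a ∈ A, IsAtom a) (hr : rk (A.sup id) = 4) {Q : L}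
    (hQ : rk Q = 3)
    (hmax : ∀ H, rk H = 3 → (A.filter (fun a => a ≤ H)).card ≤ (A.filter (fun a => a ≤ Q)).card)
    {s : ℕ} (hs : ∀ g, rk g = 2 → (A.filter (fun a => a ≤ g)).card ≤ s)
    (D : ∀ (Y U E : Type) [Fintype Y] [Fintype U] [Fintype E] (C : Cone Y U E L L L), C.s = s →
      Fintype.card Y = (A.filter (fun a => a ≤ Q)).card → C.Good) : Crit4 A := by
  obtain ⟨o, ho, hoQ⟩ := Pool.Agent.Helper38.Thick.exists_not_le hr (p := Q) (by omega)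
  refine crit4_of_good hA hQ ?_ hmax hs ho hoQ
    (D _ _ _ (cone hA hQ hmax hs ho hoQ) rfl (card_Yt A Q))
  exact Pool.Agent.Helper80.BP.crit3_all _ (fun a ha => hA a (Finset.mem_filter.mp ha).1)
    (rk_largest hA hr hQ hmax)

end Pool.Agent.Helper68.RF
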